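import Mathlib

set_option maxRecDepth 100000

namespace Pool.Agent.Results.MP_1940b6_co.NoPolarity

section Defs

variable {P : Type} [PartialOrder P]

/-- A flag is a maximal chain. -/
def IsFlag (s : Set P) : Prop := IsMaxChain (· ≤ ·) s

/-- Two flags differing in exactly one face. -/
def Adj (A B : Set P) : Prop := IsFlag A ∧ IsFlag B ∧ (A \ B).ncard = 1 ∧ (B \ A).ncard = 1

/-- Abstract polyhedron (abstract polytope of rank 3) with rank function `rank`. -/
structure IsPolyhedron (rank : P → ℤ) : Prop where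
  mono : StrictMono rank
  range : Set.range rank = Set.Icc (-1) 3
  least : ∃ b : P, ∀ x, b ≤ x
  greatest : ∃ t : P, ∀ x, x ≤ t
  flag : ∀ s : Set P, IsFlag s → s.ncard = 5
  diamond : ∀ F G : P, F ≤ G → rank G = rank F + 2 →
    {H | rank H = rank F + 1 ∧ F ≤ H ∧ H ≤ G}.ncard = 2
  conn : ∀ Φ Ψ : Set P, IsFlag Φ → IsFlag Ψ →
    Relation.ReflTransGen (fun A B => Adj A B ∧ Φ ∩ Ψ ⊆ A ∧ Φ ∩ Ψ ⊆ B) Φ Ψ

/-- The rank-2 section `G/F` is a `p`-gon: its vertices `a i` and edges `b j` are indexed by
`ZMod p`, with `a i ≤ b j` exactly when `i = j` or `i = j + 1`. -/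
def IsGon (rank : P → ℤ) (F G : P) (p : ℕ) : Prop :=
  ∃ a b : ZMod p → P, Function.Injective a ∧ Function.Injective b ∧
    Set.range a = {H | rank H = rank F + 1 ∧ F ≤ H ∧ H ≤ G} ∧
    Set.range b = {H | rank H = rank F + 2 ∧ F ≤ H ∧ H ≤ G} ∧
    ∀ i j, a i ≤ b j ↔ (i = j ∨ i = j + 1)

/-- Every 2-face is a `p`-gon and every vertex-figure is a `q`-gon. -/
def Equivelar (rank : P → ℤ) (p q : ℕ) : Prop :=
  (∀ F G : P, rank F = -1 → rank G = 2 → IsGon rank F G p) ∧
  (∀ F G : P, rank F = 0 → rank G = 3 → IsGon rank F G q)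

/-- The automorphism group is transitive on the faces of each rank. -/
def FullyTransitive (rank : P → ℤ) : Prop :=
  ∀ F G : P, rank F = rank G → ∃ φ : P ≃o P, φ F = G

/-- An incidence-reversing bijection. -/
def IsDuality (δ : P ≃ P) : Prop := ∀ F G : P, F ≤ G ↔ δ G ≤ δ F

end Defs

def LEB : ℕ := 0x8000000000000000c000000000000000a00000000000000090000000000000008800000000000000840000000000000082000000000000008100000000000000808000000000000080400000000000008c20000000000000c4100000000000008c08000000000000a104000000000000c8020000000000009081000000000000c4008000000000009200400000000000e000200000000000b000100000000000a100080000000000c80004000000000090800200000000009200010000000000c10000800000000080c0004000000000e000002000000000a2000010000000008440000800000000b0000004000000009800000200000000c100000100000000a20000008000000084400000400000008880000020000000814000001000000098000000080000008600000004000000888000000200000082400000010000008180000000800000860000000040000082400000002000008180000000100000814000000008000080c0000000040000ff99489020020000fde4a24210010000ff66110901008000f7c060c444804000fec08604c2202000bfc0101a30501000dfd300000d880800efc80c2000740400fbc001218a0c0200ffffffffffffff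
def FV : ℕ := 0x80809090707080809090808090903030202080809090707070709090202060601010808090909090808080802020303030305050606070706060707040401010606090908080202030305050505060607070707060606060101040404040505040405050707060601010404050505050404040401010303050504040101030303030202030302020202020201010101
def FE : ℕ := 0x272726262d2d2d2d2c2c252523232c2c222221211f1f29292a2a1c1c2b2b1a1a202019192b2b28282a2a1e1e1d1d2929282827272626242425251818242417171616151514142323131322222121121220201b1b1f1f1e1e1d1d1c1c1b1b1a1a1919111110100f0f18180e0e1717161615151414131312120d0d0c0c111110100f0f0e0e0b0b0d0d0c0c0a0a0b0b0a0a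
def FF : ℕ := 0x3632343132333332363236353530323636332f34363036333530353132333534343133343332342f30352f2e363533362f3432363134353435363630343535312e32332f302e303533343336342f31323134322e30362e2f353631352e3234353433332f312e302f303631323135322e2f332e3034333231312e2f302f332e312f3032312e302e31302f2e2f302e2f2e
def RR : ℕ := 0x8e8f8c8d8a8b888986878485828380817e7f7c7d7a7b787976777475727370716e6f6c6d6a6b686966676465626360615e5f5c5d5a5b585956575455525350514e4f4c4d4a4b484946474445424340413e3f3c3d3a3b383936373435323330312e2f2c2d2a2b282926272425222320211e1f1c1d1a1b181916171415121310110e0f0c0d0a0b08090607040502030001858869743d786d8e7b6a8f66757a19606372656c8782558a5954838c0d7e575a1b50897c4d868d4c4b847d4a7f4847800f4621444170773e713a79762f34376e39406b6867640762615e2d5c312c5b4e2b588b2a29564f28512625521d244322531e45423f3c3b380336353217305d16152e33146f12811023201f1c011a0b185f0a7308110e050c49040906270013025c5d5a5b88898a8b8081565748498687444542433a3b6061666734356a6b30313e3f2e2f72735e5f767738393637787968698e8f8c8d5253848526275859222320211e1f1c1d82831a1b7e7f7c7d18196e6f32337a7b6465626374753c3d70716c6d121310110e0f54550c0d50514e4f4c4d4a4b46474041080906072c2d2a2b2829242502031617141500010a0b0405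
def DL : ℕ := 0x80609040703050201242d1b1a192b2a2c252616142328271d1e12201f1c210f180e1715290c1322100b0d110a323534363031332e2f37
def DLI : ℕ := 0x608070309040501022c26282712201f24252d210f181b1a1d1e192b2a291614231322101c0b0e17150c110d0a343632353033312f2e37
def G1 : ℕ := 0x373334353632312f302e272b2c2122232d1c191a28292a171514132616242511201b1f1e1d0e180d0c12100f0a0b09080504070602030100
def G1I : ℕ := 0x373334353632312f302e272b2c2122232d1c191a28292a171514132616242511201b1f1e1d0e180d0c12100f0a0b09080504070602030100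
def G2 : ℕ := 0x373336302f3435322e312819212c1514132a291f27110b232d10222526180f2b1d201e120c240a1c1b1a17160e0d08030907010604050200
def G2I : ℕ := 0x3735313236302e34332f1f2a1826252d231b1c12201d2b16241517100f0e2c1a0d0c29282714221e190b0a13211107090604020308010500
def DT : ℕ := 0x3040302040502010006040303030705040404060202050707030505030502040608060405010606040507010005040203010403020000
def DF : ℕ := 0x101010101010000010101010101000001010101010101010101010101010101010101010000010100000101010100000000000000000101000001010000010101010101010100000101000000000101000001010000000000000000000000000000010101010101000001010000000000000000000000000101010100000000000000000101000000000101000000000101010101010100010100010101010101010101000001000101000001000101010100000100000101000001000101000101010101000001000100000101010001010000000001000000010001010000010000010100000100010100010100010001000000000000010000000100000101000001000100010000000001000100000100010000010000010000000100000606040504050605050307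04050604040303040706050204060306040104020601040706050203060405050702030303070207050605070303080102040801030507060505080704020102040803070605020305040706060201030706020701050801020604030701000201020008040407070600010508010303070100030708020001020102000802010100010000010001000100010001000100010001000100010001000100010001000100010001000100010001000100010001000100010001000100010001000100010001000100010001000100010001000100010001000100010001000100010001000100010001000100010001000100010001000100010001000100010001000100010001000100010001000100010001000100010201020102010001020102010201000102010201020102010201020102010201020102010001020100010201020100010001000100010201000102010001020102010201020100010201000100010201000102010001000100010001000100010001020102010201000102010001000100010001000100010201020100010001000100010201000100010201000100060703040304070805040504070806070708030406070605060706050607060706070605020302010203020106050708030403040708050405040708060707080304010001000304060506050607060502030201020302010605070803040504050407080100010003040605020302010203020105040504010001000203020302010504010002030201010002010100080709080708090809080908070607080706050608070607060508070607080706070807080708070607060706070607060706070708070809080504090807060506070607080506050605060504060706070605060706070605060706070607080704030504050603040506050605040506070605040605040304050203030405040504020302030403010202010100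
def GA : ℕ := 0x205080609030701060807040902010507040805060903010307080409020501090306050807040204090603070105020708040209060301050806030904020103070408060502010000000000000000000000000000000000000000000000000000000000000000000000000000000000000000000000000000000000000000000000000000000000000000000000000000000000000000000000000000000000000000000000000000000000000000000000000000000000000000000000000000000000000000000000000000000000000000000000000000000000000000000000000000000000000000000000000000000000000000000000000000000000000000000000000000000000000000000000000000000000000000000000000000000000000000000000000000000000000000000000000000000000000000000000000000000000000000000000000000000000000000000000000000000000000000000000002b2c1f231c2628152a25272d19211e1420242a18292d1b101f251a2612161e0f171a21112227160d1519241c0e1b140c10122c2913280f0b0d0e2b221d230c0a111320171d180b0a0000000000000000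
def GB : ℕ := 0x1d2227251f2c29181a252a241c231d17202419211a26281313292d19152b22112b2c1216272d1b0e0e1c26121020170d182a140c231f0f0b11211e0f28150c0a0b101b141e160d0a000000000000000000000000000000000000000000000000000000000000000000000000000000000000000000000000000000000000000000000000000000000000000000000000000000000000000000000000000000000000000000000000000000000000000000000000000000000000000000000000000000000000000000000000000000000000000000000000000000000000000000000000000000000000000000000000000000000000000000000000000000000000000000000000000000000000000000000000000000000000000000000000000000000000000000000000000000000000000000000000000000000000000000000000000000000000000000000000000000000000000000000000000000000000000000000000333236303531342f3035363233342f2e313435303633322e3036353431322e2f3135342f3336322e2f33343531322e302e31323633342f302e3132333635302f2f3334313536302e0000000000000000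
def WW : List (List (Fin 3)) := [[], [2], [1], [1, 2], [0, 2], [0], [0, 2, 1], [0, 2, 1, 2], [0, 1, 2], [0, 1], [1, 0, 2], [1, 0], [0, 1, 2, 1], [0, 1, 2, 1, 2], [1, 0, 2, 1], [1, 0, 2, 1, 2], [1, 0, 1, 2], [1, 0, 1], [2, 1, 2], [2, 1], [0, 2, 1, 0, 2], [0, 2, 1, 0], [0, 1, 0], [0, 1, 0, 2], [1, 0, 1, 2, 1], [1, 0, 1, 2, 1, 2], [2, 1, 2, 1], [2, 1, 2, 1, 2], [0, 2, 1, 0, 2, 1], [0, 2, 1, 0, 2, 1, 2], [0, 2, 1, 0, 1, 2], [0, 2, 1, 0, 1], [0, 1, 0, 1], [0, 1, 0, 1, 2], [0, 1, 0, 2, 1, 2], [0, 1, 0, 2, 1], [0, 1, 2, 1, 0, 2], [0, 1, 2, 1, 0], [1, 2, 1, 2], [1, 2, 1], [1, 0, 2, 1, 0, 2], [1, 0, 2, 1, 0], [1, 0, 1, 0], [1, 0, 1, 0, 2], [2, 1, 0], [2, 1, 0, 2], [0, 2, 1, 0, 1, 2, 1], [0, 2, 1, 0, 1, 2, 1, 2], [0, 1, 0, 2, 1, 2, 1], [2, 1, 0, 1, 2, 1], [0, 1, 2, 1, 0, 2, 1], [1, 0, 1, 0, 1, 0], [0, 1, 2, 1, 0, 1, 2], [0, 1, 2, 1, 0, 1], [1, 2, 1, 2, 1], [1, 2, 1, 2, 1, 2], [0, 1, 0, 1, 0, 1, 2], [0, 1, 0, 1, 0, 1], [1, 0, 2, 1, 0, 1, 2], [1, 0, 2, 1, 0, 1], [1, 0, 1, 0, 1], [1, 0, 1, 0, 1, 2],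 [1, 0, 1, 0, 2, 1, 2], [1, 0, 1, 0, 2, 1], [0, 1, 0, 1, 0, 2, 1], [1, 0, 1, 2, 1, 0], [2, 1, 0, 1], [2, 1, 0, 1, 2], [2, 1, 0, 2, 1, 2], [2, 1, 0, 2, 1], [2, 1, 2, 1, 0, 2], [2, 1, 2, 1, 0], [0, 2, 1, 2, 1, 2], [0, 2, 1, 2, 1], [0, 1, 0, 1, 0, 1, 0, 1], [0, 2, 1, 0, 2, 1, 0], [0, 2, 1, 0, 1, 0], [0, 2, 1, 0, 1, 0, 2], [0, 1, 0, 1, 0, 2], [0, 1, 0, 1, 0], [0, 1, 0, 2, 1, 0], [0, 1, 0, 2, 1, 0, 2], [0, 1, 2, 1, 0, 1, 2, 1], [0, 1, 2, 1, 0, 1, 2, 1, 2], [1, 2, 1, 0], [1, 2, 1, 0, 2], [1, 0, 2, 1, 0, 1, 2, 1], [0, 1, 0, 2, 1, 2, 1, 0, 1], [1, 0, 1, 0, 2, 1, 2, 1], [1, 2, 1, 0, 1, 2, 1], [1, 0, 1, 2, 1, 0, 1, 2], [1, 0, 1, 2, 1, 0, 1], [0, 1, 0, 1, 2, 1, 2], [0, 1, 0, 1, 2, 1], [1, 0, 2, 1, 2, 1, 2], [1, 0, 2, 1, 2, 1], [1, 2, 1, 0, 2, 1, 0], [2, 1, 2, 1, 0, 1], [0, 2, 1, 2, 1, 2, 1], [1, 2, 1, 2, 1, 0], [0, 1, 0, 1, 0, 1, 0], [2, 1, 0, 1, 0, 1], [1, 2, 1, 0, 1, 0, 2], [1, 2, 1, 0, 1, 0], [0, 2, 1, 0, 1, 0, 1], [0, 2, 1, 0, 1, 0, 1, 2], [0, 1, 2, 1, 2, 1, 0], [0, 1, 2, 1, 2, 1, 0, 2], [2,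 1, 0, 1, 0, 2, 1], [0, 2, 1, 0, 1, 2, 1, 0], [0, 1, 0, 2, 1, 0, 1], [2, 1, 2, 1, 2, 1], [2, 1, 0, 1, 2, 1, 0], [0, 1, 0, 2, 1, 2, 1, 0], [0, 1, 2, 1, 2, 1, 2], [0, 1, 2, 1, 2, 1], [0, 1, 2, 1, 0, 1, 0], [0, 1, 2, 1, 0, 1, 0, 2], [1, 2, 1, 0, 1], [1, 2, 1, 0, 1, 2], [1, 2, 1, 0, 2, 1, 2], [1, 2, 1, 0, 2, 1], [0, 2, 1, 2, 1, 0, 1], [0, 2, 1, 2, 1, 0, 1, 2], [2, 1, 0, 1, 0, 2], [2, 1, 0, 1, 0], [2, 1, 0, 2, 1, 0], [1, 2, 1, 2, 1, 0, 1], [1, 0, 1, 2, 1, 2, 1, 2], [1, 0, 1, 2, 1, 2, 1], [0, 2, 1, 2, 1, 0], [0, 2, 1, 2, 1, 0, 2], [1, 2, 1, 0, 1, 0, 2, 1], [0, 1, 0, 1, 2, 1, 0, 2, 1], [0, 1, 2, 1, 2, 1, 0, 1], [0, 1, 2, 1, 2, 1, 0, 1, 2], [0, 1, 0, 1, 2, 1, 0, 1], [0, 1, 0, 1, 2, 1, 0, 1, 2], [1, 0, 1, 0, 1, 2, 1, 2], [1, 0, 1, 0, 1, 2, 1], [0, 1, 2, 1, 0, 1, 0, 1], [0, 1, 2, 1, 0, 1, 0, 1, 2], [0, 1, 0, 1, 2, 1, 0], [0, 1, 0, 1, 2, 1, 0, 2]]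
def UU : List (Fin 3) := [1, 0, 1, 2, 1, 2, 0, 1, 2, 0, 1, 0, 1, 0]

def tb (N i : ℕ) : ℕ := (N >>> (8 * i)) % 256
def tf (N i : ℕ) : Fin 56 := Fin.ofNat 56 (tb N i)
def leb (x y : Fin 56) : Bool := LEB.testBit (64 * x.val + y.val)
def rk (x : Fin 56) : ℤ :=
  if x.val = 0 then -1 else if x.val < 10 then 0 else if x.val < 46 then 1
  else if x.val < 55 then 2 else 3
def fv (i : Fin 144) : Fin 56 := tf FV i
def fe (i : Fin 144) : Fin 56 := tf FE i
def ff (i : Fin 144) : Fin 56 := tf FF i
def rr (c : Fin 3) (i : Fin 144) : Fin 144 := Fin.ofNat 144 (tb RR (144 * c.val + i.val))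
def co (c : Fin 3) (i : Fin 144) : Fin 56 := if c = 0 then fv i else if c = 1 then fe i else ff i

def X : Type := Fin 56

lemma le_trans' : ∀ x y : Fin 56, leb x y = true → ∀ z, leb y z = true → leb x z = true := by
  decide +kernel
lemma le_rk : ∀ x y : Fin 56, leb x y = true → x = y ∨ rk x < rk y := by decide +kernel
lemma le_refl' : ∀ x : Fin 56, leb x x = true := by decide +kernel

instance : PartialOrder X where
  le x y := leb x y = true
  le_refl := le_refl'
  le_trans x y z h1 h2 := le_trans' x y h1 z h2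
  le_antisymm x y h1 h2 := by
    rcases le_rk x y h1 with h | h
    · exact h
    · rcases le_rk y x h2 with h' | h'
      · exact h'.symm
      · omega

instance : Fintype X := inferInstanceAs (Fintype (Fin 56))

def x0 : X := (0 : Fin 56)
def x1 : X := (55 : Fin 56)
def S (i : Fin 144) : Set X := {x | x = x0 ∨ x = x1 ∨ ∃ c, x = co c i}

lemma bot_le' : ∀ x : Fin 56, leb 0 x = true ∧ leb x 55 = true := by decide +kernel
lemma rk_cases : ∀ x : Fin 56, x = 0 ∨ x = 55 ∨ rk x = 0 ∨ rk x = 1 ∨ rk x = 2 := by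
  decide +kernel
lemma rk_bd : ∀ x : Fin 56, -1 ≤ rk x ∧ rk x ≤ 3 := by decide +kernel
lemma rk_co : ∀ c i, rk (co c i) = c.val := by decide +kernel
lemma co_le : ∀ i c d, leb (co c i) (co d i) = true ∨ leb (co d i) (co c i) = true := by
  decide +kernel
lemma co_max : ∀ i (x : Fin 56), (∀ c, leb x (co c i) = true ∨ leb (co c i) x = true) →
    x = 0 ∨ x = 55 ∨ ∃ c, x = co c i := by decide +kernel
lemma co_ex : ∀ a : Fin 56, (a = 0 ∨ rk a = 0) → ∀ b : Fin 56, (b = 0 ∨ rk b = 1) →
    (leb a b = true ∨ leb b a = true) → ∀ c : Fin 56, (c = 0 ∨ rk c = 2) →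
    (leb a c = true ∨ leb c a = true) → (leb b c = true ∨ leb c b = true) →
    ∃ i, (a = 0 ∨ a = co 0 i) ∧ (b = 0 ∨ b = co 1 i) ∧ (c = 0 ∨ c = co 2 i) := by
  decide +kernel
lemma rr_off : ∀ c i d, d ≠ c → co d (rr c i) = co d i := by decide +kernel
lemma rr_on : ∀ c i, co c (rr c i) ≠ co c i := by decide +kernel
lemma rr_uniq : ∀ c i j, (∀ d, d ≠ c → co d j = co d i) → j = i ∨ j = rr c i := by
  decide +kernel

lemma eq_of_rk {x y : X} (h : x ≤ y ∨ y ≤ x) (hr : rk x = rk y) : x = y := by
  rcases h with h | h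
  · rcases le_rk x y h with h' | h'
    · exact h'
    · omega
  · rcases le_rk y x h with h' | h'
    · exact h'.symm
    · omega

lemma rk_lt {x y : X} (h : x < y) : rk x < rk y := by
  rcases le_rk x y h.le with h' | h'
  · exact absurd h' h.ne
  · exact h'

lemma chain_S (i : Fin 144) : IsChain (· ≤ ·) (S i) := by
  intro x hx y hy _
  rcases hx with rfl | rfl | ⟨c, rfl⟩
  · exact Or.inl (bot_le' y).1
  · exact Or.inr (bot_le' y).2
  · rcases hy with rfl | rfl | ⟨d, rfl⟩
    · exact Or.inr (bot_le' _).1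
    · exact Or.inl (bot_le' _).2
    · exact co_le i c d

lemma flag_S (i : Fin 144) : IsFlag (S i) := by
  refine ⟨chain_S i, ?_⟩
  intro t ht hsub
  apply Set.Subset.antisymm hsub
  intro x hx
  apply co_max i x
  intro c
  exact ht.total hx (hsub (Or.inr (Or.inr ⟨c, rfl⟩)))

lemma pick (s : Set X) (hs : IsChain (· ≤ ·) s) (k : ℤ) :
    ∃ a : X, (a = x0 ∨ (a ∈ s ∧ rk a = k)) ∧ ∀ x ∈ s, rk x = k → x = a := by
  by_cases h : ∃ a ∈ s, rk a = k
  · obtain ⟨a, ha, hk⟩ := h
    exact ⟨a, Or.inr ⟨ha, hk⟩, fun x hx hxk => eq_of_rk (hs.total hx ha) (hxk.trans hk.symm)⟩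
  · exact ⟨x0, Or.inl rfl, fun x hx hxk => absurd ⟨x, hx, hxk⟩ h⟩

lemma rk_x0 : rk x0 = -1 := by decide

lemma flag_ex (s : Set X) (hs : IsFlag s) : ∃ i, s = S i := by
  obtain ⟨a, ha, ha'⟩ := pick s hs.1 0
  obtain ⟨b, hb, hb'⟩ := pick s hs.1 1
  obtain ⟨c, hc, hc'⟩ := pick s hs.1 2
  have cmp : ∀ (u v : X) (k l : ℤ), (u = x0 ∨ (u ∈ s ∧ rk u = k)) → (v = x0 ∨ (v ∈ s ∧ rk v = l)) →
      (leb u v = true ∨ leb v u = true) := by
    intro u v k l hu hv
    rcases hu with rfl | hu
    · exact Or.inl (bot_le' v).1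
    · rcases hv with rfl | hv
      · exact Or.inr (bot_le' u).1
      · exact hs.1.total hu.1 hv.1
  obtain ⟨i, h0, h1, h2⟩ := co_ex a (ha.imp id And.right) b (hb.imp id And.right)
    (cmp _ _ _ _ ha hb) c (hc.imp id And.right) (cmp _ _ _ _ ha hc) (cmp _ _ _ _ hb hc)
  refine ⟨i, hs.2 (chain_S i) ?_⟩
  intro x hx
  rcases rk_cases x with h | h | h | h | h
  · exact Or.inl h
  · exact Or.inr (Or.inl h)
  · have := ha' x hx h
    rcases h0 with h0 | h0
    · exact Or.inl (this.trans h0)
    · exact Or.inr (Or.inr ⟨0, this.trans h0⟩)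
  · have := hb' x hx h
    rcases h1 with h1 | h1
    · exact Or.inl (this.trans h1)
    · exact Or.inr (Or.inr ⟨1, this.trans h1⟩)
  · have := hc' x hx h
    rcases h2 with h2 | h2
    · exact Or.inl (this.trans h2)
    · exact Or.inr (Or.inr ⟨2, this.trans h2⟩)

lemma co_mem {c : Fin 3} {i j : Fin 144} (h : (co c i : X) ∈ S j) : co c i = co c j := by
  have hr := rk_co c i
  have hc := c.isLt
  rcases h with h | h | ⟨d, h⟩
  · rw [h, rk_x0] at hr; omega
  · rw [h, show rk x1 = 3 by decide] at hr; omega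
  · have hd := rk_co d j
    rw [← h, hr] at hd
    have : c = d := Fin.ext (by omega)
    rw [h, this]

lemma diff_S (c : Fin 3) (i j : Fin 144) (h1 : ∀ d, d ≠ c → co d j = co d i)
    (h2 : co c j ≠ co c i) : (S i \ S j).ncard = 1 := by
  rw [Set.ncard_eq_one]
  refine ⟨co c i, ?_⟩
  ext x
  constructor
  · rintro ⟨hx, hx'⟩
    rcases hx with rfl | rfl | ⟨d, rfl⟩
    · exact absurd (Or.inl rfl) hx'
    · exact absurd (Or.inr (Or.inl rfl)) hx'
    · by_cases hd : d = c
      · rw [hd]; rfl
      · exact absurd (Or.inr (Or.inr ⟨d, (h1 d hd).symm⟩)) hx'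
  · rintro rfl
    exact ⟨Or.inr (Or.inr ⟨c, rfl⟩), fun h => h2 (co_mem h).symm⟩

lemma adj_rr (c : Fin 3) (i : Fin 144) : Adj (S i) (S (rr c i)) ∧ Adj (S (rr c i)) (S i) := by
  have a := diff_S c i (rr c i) (rr_off c i) (rr_on c i)
  have b := diff_S c (rr c i) i (fun d hd => (rr_off c i d hd).symm) (rr_on c i).symm
  exact ⟨⟨flag_S _, flag_S _, a, b⟩, ⟨flag_S _, flag_S _, b, a⟩⟩

def dF (m : Fin 8) (i : Fin 144) : ℕ := tb DF (144 * m.val + i.val)
def inm (m : Fin 8) (c : Fin 3) : Bool := m.val.testBit c.val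

lemma dF_step : ∀ m i, dF m i = 0 ∨ ∃ c, inm m c = false ∧ dF m (rr c i) < dF m i := by
  decide +kernel
lemma dF_root : ∀ m i, dF m i = 0 → ∀ j, dF m j = 0 →
    (∀ c, inm m c = true → co c i = co c j) → i = j := by decide +kernel
lemma mask_ex (p : Fin 3 → Bool) : ∃ m, ∀ c, inm m c = p c := by
  revert p; decide +kernel

lemma to_root (m : Fin 8) (T : Set X) (n : ℕ) : ∀ i, dF m i ≤ n →
    (∀ k, (∀ c, inm m c = true → co c k = co c i) → T ⊆ S k) →
    ∃ r, dF m r = 0 ∧ (∀ c, inm m c = true → co c r = co c i) ∧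
      Relation.ReflTransGen (fun A B => Adj A B ∧ T ⊆ A ∧ T ⊆ B) (S i) (S r) ∧
      Relation.ReflTransGen (fun A B => Adj A B ∧ T ⊆ A ∧ T ⊆ B) (S r) (S i) := by
  induction n with
  | zero => exact fun i hi _ => ⟨i, by omega, fun _ _ => rfl, .refl, .refl⟩
  | succ n ih =>
    intro i hi hT
    rcases dF_step m i with h | ⟨c, hc, hlt⟩
    · exact ⟨i, h, fun _ _ => rfl, .refl, .refl⟩
    · have hag : ∀ d, inm m d = true → co d (rr c i) = co d i := by
        intro d hd
        apply rr_off
        rintro rfl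
        rw [hc] at hd
        exact absurd hd (by simp)
      obtain ⟨r, hr, hra, p1, p2⟩ := ih (rr c i) (by omega)
        (fun k hk => hT k (fun d hd => (hk d hd).trans (hag d hd)))
      have t1 : T ⊆ S i := hT i (fun _ _ => rfl)
      have t2 : T ⊆ S (rr c i) := hT _ hag
      exact ⟨r, hr, fun d hd => (hra d hd).trans (hag d hd),
        .head ⟨(adj_rr c i).1, t1, t2⟩ p1, .tail p2 ⟨(adj_rr c i).2, t2, t1⟩⟩

lemma diam : ∀ F G : Fin 56, leb F G = true → rk G = rk F + 2 →
    (Finset.univ.filter (fun H : Fin 56 => rk H = rk F + 1 ∧ leb F H = true ∧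
      leb H G = true)).card = 2 := by decide +kernel

lemma five : ∀ i, (Finset.univ.filter
    (fun x : Fin 56 => x = 0 ∨ x = 55 ∨ ∃ c, x = co c i)).card = 5 := by decide +kernel

lemma poly : IsPolyhedron (P := X) rk where
  mono := fun _ _ h => rk_lt h
  range := by
    ext k
    constructor
    · rintro ⟨x, rfl⟩
      exact rk_bd x
    · rintro ⟨h1, h2⟩
      interval_cases k
      · exact ⟨(0 : Fin 56), by decide⟩
      · exact ⟨(1 : Fin 56), by decide⟩
      · exact ⟨(10 : Fin 56), by decide⟩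
      · exact ⟨(46 : Fin 56), by decide⟩
      · exact ⟨(55 : Fin 56), by decide⟩
  least := ⟨x0, fun x => (bot_le' x).1⟩
  greatest := ⟨x1, fun x => (bot_le' x).2⟩
  flag := by
    intro s hs
    obtain ⟨i, rfl⟩ := flag_ex s hs
    rw [← five i, ← Set.ncard_coe_finset]
    congr 1
    ext x
    simp only [Finset.coe_filter, Finset.mem_univ, true_and]
    rfl
  diamond := by
    intro F G h hr
    rw [← diam F G h hr, ← Set.ncard_coe_finset]
    congr 1
    ext x
    simp only [Finset.coe_filter, Finset.mem_univ, true_and]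
    rfl
  conn := by
    intro Φ Ψ h1 h2
    obtain ⟨i, rfl⟩ := flag_ex Φ h1
    obtain ⟨j, rfl⟩ := flag_ex Ψ h2
    obtain ⟨m, hm⟩ := mask_ex (fun c => decide (co c i = co c j))
    have hij : ∀ c, inm m c = true → co c i = co c j := by
      intro c hc
      rw [hm] at hc
      simpa using hc
    have hT : ∀ k, (∀ c, inm m c = true → co c k = co c i) → S i ∩ S j ⊆ S k := by
      intro k hk x hx
      rcases hx.1 with rfl | rfl | ⟨d, rfl⟩
      · exact Or.inl rfl
      · exact Or.inr (Or.inl rfl)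
      · refine Or.inr (Or.inr ⟨d, (hk d ?_).symm⟩)
        rw [hm]
        simpa using co_mem hx.2
    obtain ⟨r, hr, hra, p1, -⟩ := to_root m (S i ∩ S j) _ i le_rfl hT
    obtain ⟨r', hr', hra', -, p2⟩ := to_root m (S i ∩ S j) _ j le_rfl
      (fun k hk => hT k (fun c hc => (hk c hc).trans (hij c hc).symm))
    have : r = r' := dF_root m r hr r' hr'
      (fun c hc => (hra c hc).trans ((hij c hc).trans (hra' c hc).symm))
    subst this
    exact p1.trans p2

def ga (x : Fin 56) (i : Fin 8) : Fin 56 := tf GA (8 * x.val + i.val)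
def gb (x : Fin 56) (i : Fin 8) : Fin 56 := tf GB (8 * x.val + i.val)

def GonOK (x F G : Fin 56) : Prop :=
  (∀ i j, ga x i = ga x j → i = j) ∧ (∀ i j, gb x i = gb x j → i = j) ∧
  (∀ H, (∃ i, ga x i = H) ↔ (rk H = rk F + 1 ∧ leb F H = true ∧ leb H G = true)) ∧
  (∀ H, (∃ i, gb x i = H) ↔ (rk H = rk F + 2 ∧ leb F H = true ∧ leb H G = true)) ∧
  ∀ i j, leb (ga x i) (gb x j) = true ↔ (i = j ∨ i = j + 1)

instance (x F G : Fin 56) : Decidable (GonOK x F G) := by unfold GonOK; infer_instance

lemma gon_of {x F G : Fin 56} (h : GonOK x F G) : IsGon (P := X) rk F G 8 :=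
  ⟨ga x, gb x, h.1, h.2.1, Set.ext h.2.2.1, Set.ext h.2.2.2.1, h.2.2.2.2⟩

lemma gon1 : ∀ F : Fin 56, rk F = -1 → ∀ G : Fin 56, rk G = 2 → GonOK G F G := by decide +kernel
lemma gon2 : ∀ G : Fin 56, rk G = 3 → ∀ F : Fin 56, rk F = 0 → GonOK F F G := by decide +kernel

def eqv (A B : ℕ) (h1 : ∀ x : Fin 56, tf B (tf A x) = x) (h2 : ∀ x : Fin 56, tf A (tf B x) = x) :
    X ≃ X := ⟨fun x : Fin 56 => tf A x, fun x : Fin 56 => tf B x, h1, h2⟩

lemma g1_le : ∀ x y : Fin 56, leb (tf G1 x) (tf G1 y) = true ↔ leb x y = true := by decide +kernel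
lemma g2_le : ∀ x y : Fin 56, leb (tf G2 x) (tf G2 y) = true ↔ leb x y = true := by decide +kernel
lemma dl_le : ∀ x y : Fin 56, leb x y = true ↔ leb (tf DL y) (tf DL x) = true := by decide +kernel

def g1 : X ≃o X := ⟨eqv G1 G1I (by decide +kernel) (by decide +kernel), fun {x y} => g1_le x y⟩
def g2 : X ≃o X := ⟨eqv G2 G2I (by decide +kernel) (by decide +kernel), fun {x y} => g2_le x y⟩

lemma dT_step : ∀ x : Fin 56, tb DT x = 0 ∨
    (tb DT (tf G1 x) < tb DT x ∧ rk (tf G1 x) = rk x) ∨
    (tb DT (tf G2 x) < tb DT x ∧ rk (tf G2 x) = rk x) := by decide +kernel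
lemma dT_root : ∀ x : Fin 56, tb DT x = 0 → ∀ y : Fin 56, tb DT y = 0 → rk x = rk y → x = y := by
  decide +kernel

lemma orb_root (n : ℕ) : ∀ x : Fin 56, tb DT x ≤ n →
    ∃ r : Fin 56, tb DT r = 0 ∧ rk r = rk x ∧ ∃ φ : X ≃o X, φ x = r := by
  induction n with
  | zero => exact fun x hx => ⟨x, by omega, rfl, OrderIso.refl _, rfl⟩
  | succ n ih =>
    intro x hx
    rcases dT_step x with h | h | h
    · exact ⟨x, h, rfl, OrderIso.refl _, rfl⟩
    · obtain ⟨r, h1, h2, φ, h3⟩ := ih (tf G1 x) (by omega)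
      exact ⟨r, h1, h2.trans h.2, g1.trans φ, h3⟩
    · obtain ⟨r, h1, h2, φ, h3⟩ := ih (tf G2 x) (by omega)
      exact ⟨r, h1, h2.trans h.2, g2.trans φ, h3⟩

lemma fully : FullyTransitive (P := X) rk := by
  intro F G h
  obtain ⟨r, h1, h2, φ, h3⟩ := orb_root _ F le_rfl
  obtain ⟨r', h1', h2', φ', h3'⟩ := orb_root _ G le_rfl
  have : r = r' := dT_root r h1 r' h1' (by rw [h2, h2']; exact h)
  subst this
  refine ⟨φ.trans φ'.symm, ?_⟩
  rw [OrderIso.trans_apply, OrderIso.symm_apply_eq]
  exact h3.trans h3'.symm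

def act (w : List (Fin 3)) (i : Fin 144) : Fin 144 := w.foldl (fun j c => rr c j) i

lemma cert : ∀ b : Fin 144, act (WW.getD b []) 0 = b ∧
    (act ((WW.getD b []).map Fin.rev) b ≠ 0 ∨ act (UU.map Fin.rev) b ≠ b) := by decide +kernel
lemma certU : act UU 0 = 0 := by decide +kernel
lemma co_lt : ∀ i, leb (co 0 i) (co 1 i) = true ∧ leb (co 1 i) (co 2 i) = true := by
  decide +kernel

lemma dual_flag (δ : X ≃ X) (hδ : IsDuality δ) (i : Fin 144) :
    ∃ j, ∀ c, (co c j : X) = δ (co c.rev i) := by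
  have lt : ∀ x y : X, x ≤ y → rk x < rk y → rk (δ y) < rk (δ x) := by
    intro x y h hr
    apply rk_lt
    refine lt_of_le_of_ne ((hδ x y).1 h) (fun e => ?_)
    rw [δ.injective e] at hr
    omega
  have r0 := rk_co 0 i
  have r1 := rk_co 1 i
  have r2 := rk_co 2 i
  simp only [Fin.val_zero, Fin.val_one, Fin.val_two] at r0 r1 r2
  have a0 := lt x0 (co 0 i) (bot_le' _).1 (by rw [rk_x0, r0]; norm_num)
  have a1 := lt (co 0 i) (co 1 i) (co_lt i).1 (by rw [r0, r1]; norm_num)
  have a2 := lt (co 1 i) (co 2 i) (co_lt i).2 (by rw [r1, r2]; norm_num)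
  have a3 := lt (co 2 i) x1 (bot_le' _).2 (by rw [r2]; decide)
  have b0 := rk_bd (δ x0)
  have b1 := rk_bd (δ x1)
  have l1 : δ (co 1 i) ≤ δ (co 0 i) := (hδ _ _).1 (co_lt i).1
  have l2 : δ (co 2 i) ≤ δ (co 1 i) := (hδ _ _).1 (co_lt i).2
  have e0 : rk (δ (co 2 i)) = 0 := by omega
  have e1 : rk (δ (co 1 i)) = 1 := by omega
  have e2 : rk (δ (co 0 i)) = 2 := by omega
  obtain ⟨j, h0, h1, h2⟩ := co_ex (δ (co 2 i)) (Or.inr e0) (δ (co 1 i)) (Or.inr e1) (Or.inl l2)
    (δ (co 0 i)) (Or.inr e2) (Or.inl (le_trans l2 l1)) (Or.inl l1)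
  have z : rk 0 = -1 := rk_x0
  refine ⟨j, fun c => ?_⟩
  fin_cases c
  · rcases h0 with h | h
    · rw [h] at e0; omega
    · exact h.symm
  · rcases h1 with h | h
    · rw [h] at e1; omega
    · exact h.symm
  · rcases h2 with h | h
    · rw [h] at e2; omega
    · exact h.symm

lemma no_pol (δ : X ≃ X) (hδ : IsDuality δ) : ¬ ∀ x, δ (δ x) = x := by
  intro hp
  choose D hD using dual_flag δ hδ
  have inj : ∀ i j : Fin 144, (∀ c, co c j = co c i) → j = i := by
    intro i j h
    rcases rr_uniq 0 i j (fun d _ => h d) with e | e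
    · exact e
    · exact absurd (e ▸ h 0) (rr_on 0 i)
  have DD : ∀ i, D (D i) = i := by
    intro i
    apply inj
    intro c
    have := hD (D i) c
    rw [hD i c.rev, Fin.rev_rev] at this
    exact this.trans (hp _)
  have Dr : ∀ c i, D (rr c i) = rr c.rev (D i) := by
    intro c i
    rcases rr_uniq c.rev (D i) (D (rr c i)) (fun d hd => by
      have h1 := hD (rr c i) d
      have h2 := hD i d
      rw [rr_off c i d.rev (fun e => hd (by rw [← e, Fin.rev_rev]))] at h1
      exact h1.trans h2.symm) with e | e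
    · have := congrArg D e
      rw [DD, DD] at this
      exact absurd (congrArg (co c) this) (rr_on c i)
    · exact e
  have Dw : ∀ (w : List (Fin 3)) i, D (act w i) = act (w.map Fin.rev) (D i) := by
    intro w
    induction w with
    | nil => intro i; rfl
    | cons c w ih =>
      intro i
      have := ih (rr c i)
      rw [Dr] at this
      exact this
  obtain ⟨h1, h2⟩ := cert (D 0)
  rcases h2 with h2 | h2
  · rw [← Dw, h1, DD] at h2
    exact h2 rfl
  · rw [← Dw, certU] at h2
    exact h2 rfl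

theorem result : ∃ (P : Type) (_ : Finite P) (_ : PartialOrder P) (rank : P → ℤ),
    IsPolyhedron rank ∧ Equivelar rank 8 8 ∧ FullyTransitive rank ∧
    (∃ δ : P ≃ P, IsDuality δ) ∧ ∀ δ : P ≃ P, IsDuality δ → ¬ ∀ x, δ (δ x) = x :=
  ⟨X, inferInstance, inferInstance, rk, poly,
    ⟨fun F G h1 h2 => gon_of (gon1 F h1 G h2), fun F G h1 h2 => gon_of (gon2 G h2 F h1)⟩, fully,
    ⟨eqv DL DLI (by decide +kernel) (by decide +kernel), dl_le⟩, no_pol⟩

end Pool.Agent.Results.MP_1940b6_co.NoPolarity
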